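import Pool.Agent.TH689.QXOrth

/-!
# Randomized convex programs need `N ^ 2` constraints for random orthogonal vectors

The definitions used in the statement (in `Pool/Agent/TH689/QXOrth.lean`,
`Pool/Agent/TH689/QXDefs.lean` and `Pool/Agent/TH689/GXDefs.lean`):

* An instance consists of `k` lists of `N` vectors in `{0, 1} ^ T`. It is given by its `T`
  coordinates `y t : Fin k × Fin N → Bool`; the entry `y t (i, j)` is the `t`-th entry of the `j`-th
  vector of the `i`-th list. For `k = 2` this is the Orthogonal Vectors problem.
* `Meet (y t) x`: the `k` vectors which are chosen by `x : Fin k → Fin N`, one from each list, all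
  have a `1` in the coordinate `t`. They are orthogonal if this holds for no `t`.
* `Scheme X 𝒞 a s r D`: the schemes of mixed-integer convex programming relaxations of the problem
  to find orthogonal vectors, with `a` binary variables, `s` convex constraints of dimension `D`
  which are common to all instances and `r` such constraints for every coordinate, which may depend
  in any way on the `k * N` entries of this coordinate. A constraint says that the value of an affine
  map to `ℝ ^ D` lies in an arbitrary convex set. There are any number of real variables and linear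
  equations. Every choice `x` has a vector, about which nothing is assumed.
* `P.CorrectAt Meet x`: the vector of `x` satisfies the common constraints, the constraints of the
  coordinates which `x` does not meet, and its binary variables are `0` or `1`; so it is a solution
  of the relaxation of every instance in which the vectors chosen by `x` are orthogonal.
* `Rejects P Meet y δ`: the relaxation claims, with an error `δ`, that no `k` vectors, one from each
  list, are orthogonal in the instance `y`.
* `P.correctRate Meet`: the fraction of the choices at which `P` is correct.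
* `rejectRate P Meet T δ`: the fraction of the instances with `T` coordinates which are rejected.
-/

set_option autoImplicit false

namespace Pool.Agent.Results.MP_0f984e_lc.ConvexProgramsRandomVectors

open Pool.Agent.TH689.GX Pool.Agent.TH689.QX

/-- Let `k, N, T ≥ 1` and `0 < δ < 1`. Let `P ω` be a randomized scheme of mixed-integer convex
programming relaxations of the problem to find `k` orthogonal vectors, one from each of `k` lists of
`N` vectors in `{0, 1} ^ T`, where `ω` has the probability `p ω`, and with
`2 ^ a * (s + (r + 1) * T + 1) * (D + 2) ≤ M`. Then the probability that it is correct at a random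
choice of `k` vectors and that, independently, it rejects `k` lists of random vectors with the error
`δ` is at most `2 * T ^ 3 * M / (N ^ k * δ ^ 2)`.

Conversely, for `k, N ≥ 1` and every `S ≤ N ^ k` there is a scheme with `S` linear inequalities and
one more for every coordinate, which is correct at a fraction `S / N ^ k` of the choices, rejects
every instance without `k` orthogonal vectors with every error `δ < 1 / T`, and so rejects all but a
fraction `N ^ k * (1 - 1 / 2 ^ k) ^ T` of the instances. -/
theorem result :
    (∀ k N T : ℕ, 0 < k → 0 < N → 1 ≤ T → ∀ δ : ℝ, 0 < δ → δ < 1 →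
      ∀ (Ω : Type) [Fintype Ω] (p : Ω → ℝ), (∀ ω, 0 ≤ p ω) → ∑ ω, p ω = 1 →
      ∀ (a s r D : Ω → ℕ) (M : ℝ),
        (∀ ω, (2 : ℝ) ^ a ω * (s ω + (r ω + 1) * T + 1) * (D ω + 2) ≤ M) →
      ∀ P : ∀ ω, Scheme (Fin k → Fin N) (Fin k × Fin N → Bool) (a ω) (s ω) (r ω) (D ω),
        ∑ ω, p ω * ((P ω).correctRate Meet * rejectRate (P ω) Meet T δ)
          ≤ 2 * T ^ 3 * M / (N ^ k * δ ^ 2)) ∧
    ∀ k N : ℕ, 0 < k → 0 < N → ∀ S ≤ N ^ k,
      ∃ P : Scheme (Fin k → Fin N) (Fin k × Fin N → Bool) 0 S 1 1,
        P.correctRate Meet = (S : ℝ) / N ^ k ∧
        ∀ (T : ℕ) (δ : ℝ), 0 ≤ δ → T * δ < 1 →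
          (∀ y : Fin T → (Fin k × Fin N → Bool), (∀ x, ∃ t, Meet (y t) x) →
            Rejects P Meet y δ) ∧
          1 - (N : ℝ) ^ k * (1 - (1 / 2) ^ k) ^ T ≤ rejectRate P Meet T δ := by
  refine ⟨?_, ?_⟩
  · intro k N T hk hN hT δ hδ0 hδ1 Ω _ p hp hp1 a s r D M hM P
    have : Nonempty (Fin k → Fin N) := ⟨fun _ => ⟨0, hN⟩⟩
    have h1 := learn_random (Meet (k := k) (N := N)) (twist_orth hk hN) hT hδ0 hδ1 Ω p hp
      hp1 a s r D M hM P
    refine h1.trans (le_of_eq ?_)
    have hN' : (N : ℝ) ≠ 0 := by exact_mod_cast hN.ne'
    field_simp
  · intro k N hk hN S hS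
    have : Nonempty (Fin k → Fin N) := ⟨fun _ => ⟨0, hN⟩⟩
    have hcard : Fintype.card (Fin k → Fin N) = N ^ k := by simp
    obtain ⟨P, h1, h2⟩ := learn_upper (Meet (k := k) (N := N)) (1 - (1 / 2) ^ k)
      meet_count S (by rw [hcard]; exact hS)
    refine ⟨P, ?_, ?_⟩
    · rw [h1, hcard]
      push_cast
      rfl
    · intro T δ hδ0 hδ
      obtain ⟨h3, h4⟩ := h2 T δ hδ0 hδ
      refine ⟨h3, ?_⟩
      rw [hcard] at h4
      refine le_trans (le_of_eq ?_) h4
      push_cast
      rfl

end Pool.Agent.Results.MP_0f984e_lc.ConvexProgramsRandomVectors
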