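import Pool.Agent.TH697.Form.OV

set_option autoImplicit false

/-! # Orthogonal vectors for randomised formulas

A leaf of a formula is an arbitrary predicate of one vector of `A` or an arbitrary predicate of
the whole list `B`, and a gate is an arbitrary function of two bits. -/

namespace Pool.Agent.Results.MP_0f984e_lc.RandomizedFormulas

open Pool.Agent.TH697.Form Pool.Agent.TH697.Form.OV

theorem result :
    (∀ n d ℓ : ℕ, 8 ≤ n → n ≤ 2 ^ ℓ → 4 * ℓ + 2 ≤ d →
      ∀ (Ω : Type) [Fintype Ω] (μ : Ω → ℝ), IsProb μ →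
      ∀ F : Ω → Fml (Option (Fin n)) (Item n d),
        Computes μ F (Distinct n d) (ov n d) → (n : ℝ) ^ 2 * d ≤ 200 * expSize μ F) ∧
    (∀ n d : ℕ, 1 ≤ n → 1 ≤ d → ∃ G : Fml (Option (Fin n)) (Item n d),
      (∀ x, G.eval x = ov n d x) ∧ G.size = 2 * n ^ 2 * d) :=
  ⟨fun _ _ _ h8 hn hd _ _ μ hμ F hF => lower h8 hn hd μ hμ F hF,
    fun _ _ hn hd => upper hn hd⟩

end Pool.Agent.Results.MP_0f984e_lc.RandomizedFormulas
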