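import Mathlib
import Pool.Agent.TH457.Ary.OV

/-!
# Orthogonal vectors: tests of several vectors

A test sees up to `w` items; an item is a vector of `A` or the whole list `B`, and it is seen
through an arbitrary function with `2 ^ d` values. So a test can look at `w` vectors of `A`, or at
one vector of `A` and at arbitrary `d` bits of information about the list `B` (for instance at one
vector of `B`). We show that random formulas over such tests (with arbitrary functions of two bits
as gates) and random branching programs over such tests need `n ^ 2 / (50 w ^ 2)` leaves or nodes,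
if the error probability is at most `1 / 3`. For `w = 2` exhaustive search over the pairs of vectors
has `n ^ 2` leaves or nodes, so it is optimal up to a constant factor.

Proof. Fix `i`. The vector `a_i` can ask for each of the `n d / 2` bits which the vectors of `B`
carry besides their addresses. On the other hand, if a formula has `s_i` leaves which see `a_i`, then
at most `2 (16 q ^ (w - 1)) ^ s_i`, `q = 2 ^ d`, functions of `a_i` arise when the other items are
fixed: a test of `w` items becomes one of `q ^ (w - 1)` predicates of `a_i`. By the coding argument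
for one-way communication with errors (helper697, `Pool.Agent.TH697.Row`) the average of `s_i` is at
least `n / (50 w)`.
-/

set_option autoImplicit false

namespace Pool.Agent.Results.MP_0f984e_lc.SeveralVectors

open Pool.Agent.TH697.Form Pool.Agent.TH697.Row Pool.Agent.TH697.Form.OV
open Pool.Agent.TH457.Ary (Fml Program expSize)

theorem result :
    (∀ n d ℓ w : ℕ, 25 ≤ n → n ≤ 2 ^ ℓ → 4 * ℓ + 2 ≤ d → 1 ≤ w →
      ∀ (Ω : Type) [Fintype Ω] (μ : Ω → ℝ), IsProb μ →
        (∀ F : Ω → Fml (Option (Fin n)) (Item n d) w (2 ^ d),
          ApproximatesOn μ (fun ω => (F ω).eval) (Distinct n d) (ov n d) →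
          (n : ℝ) ^ 2 ≤ 50 * w ^ 2 * expSize μ F) ∧
        (∀ (s : ℕ) (B : Ω → Program (Option (Fin n)) (Item n d) w (2 ^ d) s),
          ApproximatesOn μ (fun ω => (B ω).eval) (Distinct n d) (ov n d) →
          (n : ℝ) ^ 2 ≤ 50 * w ^ 2 * s)) ∧
    (∀ n d : ℕ, 1 ≤ n →
      (∃ F : Fml (Option (Fin n)) (Item n d) 2 (2 ^ d), F.size = n ^ 2 ∧
        ∀ x, F.eval x = ov n d x) ∧
      ∃ B : Program (Option (Fin n)) (Item n d) 2 (2 ^ d) (n ^ 2), ∀ x, B.eval x = ov n d x) :=
  ⟨fun _ _ _ _ h25 hn hd hw _ _ μ hμ =>
    ⟨fun F hF => Pool.Agent.TH457.Ary.OV.formula_bound h25 hn hd hw μ hμ F hF,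
      fun s B hB => Pool.Agent.TH457.Ary.OV.program_bound h25 hn hd hw μ hμ s B hB⟩,
    fun _ _ hn => Pool.Agent.TH457.Ary.OV.upper hn⟩

end Pool.Agent.Results.MP_0f984e_lc.SeveralVectors
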