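import Pool.Agent.TH658.Xg.OV2
import Pool.Agent.TH658.Xg.OVBrute
import Pool.Agent.TH658.Xg.Rand

set_option autoImplicit false

/-!
# The Orthogonal Vectors hypothesis holds for symmetric programs of linear algebra

The instances of Orthogonal Vectors are two lists `A`, `B` of `N` vectors in `{0, 1}^d`. The group
`𝔊 = S_N × S_N × S_d` permutes the first list, the second list and the coordinates. A symmetric
program is a sequence of gates. The value of a gate is an arbitrary function of the isomorphism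
class of a vector space of dimension `r` (over some field of characteristic not two, which may
depend on the gate) with endomorphisms and sesquilinear forms, on which a subgroup `H` of `𝔊` acts
by a linear representation (`ClassGate`, cost `r^2 [𝔊 : H]`), or an arbitrary function of the traces
of the products of `r × r` matrices on which each element of `H` acts by some conjugation
(`TraceGate`, cost `r^4 [𝔊 : H]`). The entries of the matrices are linear combinations of arbitrary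
functions of at most `D` coordinates of all the vectors, and of arbitrary functions of the value of
an earlier gate at the instance with permuted lists and coordinates. A gate thus stands for the
`[𝔊 : H]` gates which one gets from it by permutations; the cost is the number of the entries of
their matrices. For instance, the values of a circuit with inputs the bits of the vectors and with
gates which compute arbitrary functions of the number of their true inputs, which is mapped to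
itself by `𝔊`, are those of such a program; its cost is the number of its gates.

(1) Let `k` and `q` be large enough (depending on `ε`, `η`), `N = 2^q`, `d = (4 q)^k + 4 q`, and
`D ≤ 2 (1 - ε) q / k`. There are two distributions on instances with distinct vectors, one on
instances with an orthogonal pair and one on instances in which all inner products are larger than
`(1 - η) C q`, such that the distributions of the value of a symmetric program of cost `S` differ
by at most `S / N^(2 (1 - ε))`.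
(2) For `α < 2` and all `c`, `D` there is `k` such that for all large `q` the expected cost of the
randomized symmetric programs for Orthogonal Vectors with `N = 2^q` distinct vectors in each list
and dimension `d = (4 q)^k + 4 q` is at least `N^α d^c`.
(3) Exhaustive search is a symmetric program of cost `N^2 + 1`.
-/

namespace Pool.Agent.Results.MP_0f984e_lc.SymmetricPrograms

open Pool.Agent.TH658.Xg

/-- The sum over the gates of the square (for class gates; for trace gates the fourth power) of the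
dimension, times the index of the group. -/
noncomputable def cost {N d s : ℕ} (H : Fin s → Subgroup (SymOV N d)) (r p : Fin s → ℕ) : ℕ :=
  ∑ j, r j ^ p j * (H j).index

/-- `v` is a symmetric program which reads functions of at most `D` coordinates. -/
def IsVectorProgram {N d s : ℕ} {V : Type} (D : ℕ) (v : Fin s → OV N d → V)
    (H : Fin s → Subgroup (SymOV N d)) (r p : Fin s → ℕ) : Prop :=
  IsProgram (SymOV N d) (LocalOV N d D) v H r p

/-- The values of the programs have nearly the same distribution on the families `F`, `G`. -/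
def Fooled {N d : ℕ} (D : ℕ) (B : ℝ) {Ω : Type} (F G : Ω → OV N d) : Prop :=
  ∀ (s : ℕ) (V : Type) (v : Fin s → OV N d → V) (H : Fin s → Subgroup (SymOV N d))
    (r p : Fin s → ℕ), IsVectorProgram D v H r p → ∀ (j₀ : Fin s) (T : Set V),
    |(Nat.card {ω // v j₀ (F ω) ∈ T} : ℝ) - Nat.card {ω // v j₀ (G ω) ∈ T}| * B ≤
      cost H r p * Nat.card Ω

/-- `C` is large compared to `1 / η`, and `k`, `q` are large compared to `C` and `1 / ε`. -/
def Params (ε η : ℝ) (C k q : ℕ) : Prop :=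
  0 < ε ∧ ε ≤ 1 ∧ 0 < η ∧ η ≤ 1 ∧ 4 / η ^ 2 ≤ C ∧ 1024 * C * (C + 2) / ε ^ 3 ≤ k ∧
    512 * C / ε ^ 2 ≤ q

/-- (1) Average case. -/
def AverageCase : Prop :=
  ∀ (ε η : ℝ) (C k q D : ℕ), Params ε η C k q → (k * D : ℝ) ≤ 2 * (1 - ε) * q →
    ∃ (Ω : Type) (_ : Fintype Ω) (_ : Nonempty Ω) (F G : Ω → OV (2 ^ q) ((4 * q) ^ k + 4 * q)),
      (∀ ω, Valid (F ω) ∧ Valid (G ω) ∧ HasPair (F ω) ∧
        ∀ u v, (1 - η) * (C * q) < inner (G ω) u v) ∧
      Fooled D (((2 ^ q : ℕ) : ℝ) ^ (2 * (1 - ε))) F G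

/-- The randomized program `v` (`R` is the set of the outcomes of the coin tosses) decides with
error `1 / 3` if a valid instance has an orthogonal pair: it accepts if the value of the gate `j₀`
is in `T`. -/
def Decides {N d : ℕ} {R : Type} [Fintype R] {V : Type} {s : R → ℕ}
    (v : (ρ : R) → Fin (s ρ) → OV N d → V) (j₀ : (ρ : R) → Fin (s ρ)) (T : Set V) : Prop :=
  ∀ x : OV N d, Valid x →
    (HasPair x → 2 / 3 * (Nat.card R : ℝ) ≤ Nat.card {ρ // v ρ (j₀ ρ) x ∈ T}) ∧
    (¬ HasPair x → (Nat.card {ρ // v ρ (j₀ ρ) x ∈ T} : ℝ) ≤ 1 / 3 * Nat.card R)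

/-- The expected cost of the randomized symmetric programs for two lists of `N` vectors in
dimension `d` is at least `B`. -/
def CostAtLeast (N d D : ℕ) (B : ℝ) : Prop :=
  ∀ (R : Type) [Fintype R] (V : Type) (s : R → ℕ) (v : (ρ : R) → Fin (s ρ) → OV N d → V)
    (H : (ρ : R) → Fin (s ρ) → Subgroup (SymOV N d)) (r p : (ρ : R) → Fin (s ρ) → ℕ)
    (j₀ : (ρ : R) → Fin (s ρ)) (T : Set V),
    (∀ ρ, IsVectorProgram D (v ρ) (H ρ) (r ρ) (p ρ)) → Decides v j₀ T →
    B * Nat.card R ≤ ∑ ρ, (cost (H ρ) (r ρ) (p ρ) : ℝ)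

/-- (2) The Orthogonal Vectors hypothesis for randomized symmetric programs. -/
def Hypothesis : Prop :=
  ∀ (α : ℝ) (c D : ℕ), α < 2 → ∃ k q₀ : ℕ, ∀ q, q₀ ≤ q →
    CostAtLeast (2 ^ q) ((4 * q) ^ k + 4 * q) D
      (((2 ^ q : ℕ) : ℝ) ^ α * (((4 * q) ^ k + 4 * q : ℕ) : ℝ) ^ c)

/-- (3) Exhaustive search. -/
def Exhaustive : Prop :=
  ∀ N d D : ℕ, 0 < N → 0 < D → ∃ (v : Fin 2 → OV N d → Prop) (H : Fin 2 → Subgroup (SymOV N d))
    (r p : Fin 2 → ℕ), IsVectorProgram D v H r p ∧ (∀ x, v 1 x ↔ HasPair x) ∧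
    cost H r p = N ^ 2 + 1

theorem average : AverageCase := by
  rintro ε η C k q D ⟨hε, hε1, hη, hη1, hC, hk, hq⟩ hD
  have hq' : 1024 * C / ε ^ 2 ≤ ((q + q : ℕ) : ℝ) := by
    push_cast
    have h1 : 1024 * (C : ℝ) / ε ^ 2 = 2 * (512 * C / ε ^ 2) := by ring
    rw [h1]
    linarith
  have hD' : (k * D : ℝ) ≤ (1 - ε) * ((q + q : ℕ) : ℝ) := by
    push_cast
    linarith
  obtain ⟨Ω, i1, i2, F, G, h1, h2⟩ := ov_average hε hε1 hη hη1 hC hk hq' hD'
  refine ⟨Ω, i1, i2, F, G, fun ω => ⟨(h1 ω).1, (h1 ω).2.1, (h1 ω).2.2.1, fun u v => ?_⟩, ?_⟩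
  · have h3 : (1 - η) * ((C * (q + q) : ℕ) : ℝ) <
        2 * ((Pool.Agent.TH658.Xg.inner (d := (4 * q) ^ k + 4 * q) (G ω) u v : ℕ) : ℝ) :=
      (h1 ω).2.2.2 u v
    push_cast at h3
    linarith
  · intro s V v H r p hp j₀ T
    have h3 := h2 s V v H r p hp j₀ T
    have h4 : ((2 ^ q : ℕ) : ℝ) ^ (2 * (1 - ε)) = (2 : ℝ) ^ ((1 - ε) * ((q + q : ℕ) : ℝ)) := by
      push_cast
      rw [← Real.rpow_natCast, ← Real.rpow_mul (by norm_num)]
      congr 1
      ring
    rw [h4]
    exact h3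

theorem hypothesis : Hypothesis := by
  intro α c D hα
  set ε : ℝ := min (1 / 2) ((2 - α) / 4) with hεdef
  have hε : 0 < ε := lt_min (by norm_num) (by linarith)
  have hε1 : ε ≤ 1 / 2 := min_le_left _ _
  have hε2 : ε ≤ (2 - α) / 4 := min_le_right _ _
  obtain ⟨k, hk⟩ := exists_nat_ge (1024 * ((4 : ℕ) : ℝ) * (((4 : ℕ) : ℝ) + 2) / ε ^ 3)
  have hk0 : 0 < k := by
    have h1 : (0 : ℝ) < k := lt_of_lt_of_le (by positivity) hk
    exact_mod_cast h1
  set δ : ℝ := (2 - α) / 2 with hδ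
  have hδ0 : 0 < δ := by
    rw [hδ]
    linarith
  have hr : 1 < (2 : ℝ) ^ δ := Real.one_lt_rpow (by norm_num) hδ0
  -- the choice of `q₀`
  have h1 := tendsto_pow_const_div_const_pow_of_one_lt (k * c) hr
  have h2 : ∀ᶠ q : ℕ in Filter.atTop,
      (q : ℝ) ^ (k * c) / ((2 : ℝ) ^ δ) ^ q < 1 / (3 * 8 ^ (k * c)) :=
    h1.eventually (gt_mem_nhds (by positivity))
  obtain ⟨a, ha⟩ := exists_nat_ge (512 * ((4 : ℕ) : ℝ) / ε ^ 2)
  obtain ⟨b, hb⟩ := Filter.eventually_atTop.mp h2
  refine ⟨k, max (max a b) (max 1 (k * D)), fun q hq => ?_⟩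
  have hqa : a ≤ q := (le_max_left _ _).trans ((le_max_left _ _).trans hq)
  have hqb : b ≤ q := (le_max_right _ _).trans ((le_max_left _ _).trans hq)
  have hq1 : 1 ≤ q := (le_max_left _ _).trans ((le_max_right _ _).trans hq)
  have hqD : k * D ≤ q := (le_max_right _ _).trans ((le_max_right _ _).trans hq)
  have hqR : (1 : ℝ) ≤ q := by exact_mod_cast hq1
  have hpar : Params ε 1 4 k q := by
    refine ⟨hε, by linarith, one_pos, le_rfl, by norm_num, hk, ha.trans ?_⟩
    exact_mod_cast hqa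
  have hD : (k * D : ℝ) ≤ 2 * (1 - ε) * q := by
    have h3 : ((k * D : ℕ) : ℝ) ≤ q := by exact_mod_cast hqD
    push_cast at h3
    nlinarith
  obtain ⟨Ω, i1, i2, F, G, h3, h4⟩ := average ε 1 4 k q D hpar hD
  intro R _ V s v H r p j₀ T hp hdec
  have h5 := randomized_core F G (fun ρ x => v ρ (j₀ ρ) x ∈ T)
    (fun ρ => (cost (H ρ) (r ρ) (p ρ) : ℝ)) (((2 ^ q : ℕ) : ℝ) ^ (2 * (1 - ε)))
    (Real.rpow_nonneg (Nat.cast_nonneg _) _)
    (fun ρ => h4 (s ρ) V (v ρ) (H ρ) (r ρ) (p ρ) (hp ρ) (j₀ ρ) T)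
    (fun ω => (hdec (F ω) (h3 ω).1).1 (h3 ω).2.2.1)
    (fun ω => (hdec (G ω) (h3 ω).2.1).2 (by
      rintro ⟨u, u', hu⟩
      have h6 := (h3 ω).2.2.2 u u'
      rw [hu, sub_self, zero_mul, Nat.cast_zero] at h6
      exact lt_irrefl _ h6))
  refine le_trans ?_ h5
  refine mul_le_mul_of_nonneg_right ?_ (Nat.cast_nonneg _)
  -- the numbers
  have h6 : (((4 * q) ^ k + 4 * q : ℕ) : ℝ) ^ c ≤ 8 ^ (k * c) * (q : ℝ) ^ (k * c) := by
    have h7 : (((4 * q) ^ k + 4 * q : ℕ) : ℝ) ≤ (8 * q) ^ k := by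
      have h8 : (4 * q) ^ k + 4 * q ≤ (8 * q) ^ k := by
        have h9 : 4 * q ≤ (4 * q) ^ k := Nat.le_self_pow hk0.ne' _
        have h10 : 2 ^ k * (4 * q) ^ k = (8 * q) ^ k := by
          rw [← mul_pow]
          congr 1
          ring
        have h11 : 2 ≤ 2 ^ k := Nat.le_self_pow hk0.ne' 2
        calc (4 * q) ^ k + 4 * q ≤ (4 * q) ^ k + (4 * q) ^ k := Nat.add_le_add_left h9 _
          _ = 2 * (4 * q) ^ k := by ring
          _ ≤ 2 ^ k * (4 * q) ^ k := Nat.mul_le_mul_right _ h11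
          _ = (8 * q) ^ k := h10
      exact_mod_cast h8
    calc (((4 * q) ^ k + 4 * q : ℕ) : ℝ) ^ c ≤ ((8 * (q : ℝ)) ^ k) ^ c :=
          pow_le_pow_left₀ (Nat.cast_nonneg _) h7 c
      _ = 8 ^ (k * c) * (q : ℝ) ^ (k * c) := by
          rw [← pow_mul, mul_pow]
  have h7 : 3 * (8 ^ (k * c) * (q : ℝ) ^ (k * c)) ≤ ((2 : ℝ) ^ δ) ^ q := by
    have h8 := (hb q hqb).le
    have h9 : (0 : ℝ) < ((2 : ℝ) ^ δ) ^ q := by positivity
    rw [div_le_div_iff₀ h9 (by positivity), one_mul] at h8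
    calc 3 * (8 ^ (k * c) * (q : ℝ) ^ (k * c)) = (q : ℝ) ^ (k * c) * (3 * 8 ^ (k * c)) := by ring
      _ ≤ _ := h8
  have h8 : ((2 ^ q : ℕ) : ℝ) ^ (2 * (1 - ε)) ≥ ((2 ^ q : ℕ) : ℝ) ^ α * ((2 : ℝ) ^ δ) ^ q := by
    push_cast
    rw [← Real.rpow_natCast 2 q, ← Real.rpow_mul (by norm_num), ← Real.rpow_mul (by norm_num),
      ← Real.rpow_natCast ((2 : ℝ) ^ δ) q, ← Real.rpow_mul (by norm_num),
      ← Real.rpow_add (by norm_num)]
    refine Real.rpow_le_rpow_of_exponent_le (by norm_num) ?_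
    have h9 : α + δ ≤ 2 * (1 - ε) := by
      rw [hδ]
      linarith
    nlinarith
  have h9 : (0 : ℝ) ≤ ((2 ^ q : ℕ) : ℝ) ^ α := Real.rpow_nonneg (Nat.cast_nonneg _) _
  calc ((2 ^ q : ℕ) : ℝ) ^ α * (((4 * q) ^ k + 4 * q : ℕ) : ℝ) ^ c
      ≤ ((2 ^ q : ℕ) : ℝ) ^ α * (1 / 3 * ((2 : ℝ) ^ δ) ^ q) := by
        refine mul_le_mul_of_nonneg_left ?_ h9
        linarith
    _ = 1 / 3 * (((2 ^ q : ℕ) : ℝ) ^ α * ((2 : ℝ) ^ δ) ^ q) := by ring
    _ ≤ 1 / 3 * ((2 ^ q : ℕ) : ℝ) ^ (2 * (1 - ε)) :=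
        mul_le_mul_of_nonneg_left h8 (by norm_num)

theorem exhaustive : Exhaustive := by
  intro N d D hN hD
  obtain ⟨v, H, h1, h2, h3⟩ := ov_exhaustive (N := N) (d := d) hN D hD
  exact ⟨v, H, _, _, h1, h2, h3⟩

/-- The two lower bounds and the matching program. -/
theorem result : AverageCase ∧ Hypothesis ∧ Exhaustive := ⟨average, hypothesis, exhaustive⟩

end Pool.Agent.Results.MP_0f984e_lc.SymmetricPrograms
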